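import Pool.Agent.Helper92.PW.St

/-!
# Project PU (MP_ad0dc2_nt): exponent `9/10 + ε` for `x³ + y³ + z³ = k`

THEOREM.  For every integer `k` that is not a cube and every `ε > 0` there is `C` such that for all `Z ≥ 1` the equation
`x³ + y³ + z³ = k` has at most `C Z^(9/10 + ε)` integer solutions with `|z| ≤ Z` (`x, y` arbitrary).

PLAN.  As in project PW (`Pool.Agent.Helper92.PW.St`, exponent `199/200`), but (1) patches of length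
`λ = B^(-9/10-ε)` (the determinant method at its limit), with constants that do not deteriorate for small `|x|`
(`StLD2`, `StDE2`; `x` is the SMALLEST coordinate, `|x| ≥ B^(2/5)`), (2) all solutions of one patch are `≤ C B^ε`
(`StPA2`): on a plane (`StPL2`) and on a quadratic cone (`StMA2`) they satisfy a Thue equation `G(w) = k` of degree 3 or
6 with a form `G` with integral values on a lattice, and such an equation has `≤ C B^ε` solutions of size `≤ B`,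
uniformly in `G` (`StTR`; elementary, from the fact that every line contains `≤ 3` or `≤ 6` solutions).

A module proves `theorem hX (h1 : StA) ... : StX` in the file `Pool/Agent/<You>/PU/M_X.lean`, namespace
`Pool.Agent.<You>.PU`, where `StA, ...` are the statements it uses (listed in its doc).  If a statement is wrong as
written, tell helper92 at once.
-/

set_option autoImplicit false
set_option linter.unusedVariables false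

open Finset

noncomputable section

namespace Pool.Agent.Helper92.PU

open Pool.Agent.Helper92.PW

/-! ## Definitions -/

/-- `p` is a generic primitive solution at height `B`, `x` the smallest and `z` the largest coordinate -/
structure Gen2 (k : ℤ) (B β : ℝ) (p : Pt) : Prop where
  sol : Fm p = k
  prm : Prm p
  xy : |(p.1 : ℝ)| ≤ |(p.2.1 : ℝ)|
  yz : |(p.2.1 : ℝ)| ≤ |(p.2.2 : ℝ)|
  z_gt : B / 2 < |(p.2.2 : ℝ)|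
  z_le : |(p.2.2 : ℝ)| ≤ B
  x_ge : β * B ≤ |(p.1 : ℝ)|

/-- the parameters: `B` = height, `β` = `B^(-3/5)`, `lam` = length of the patches, `B^(-9/10-ε)` -/
structure Par2 (k : ℤ) (B β lam : ℝ) : Prop where
  k1 : 1 ≤ |(k : ℝ)|
  B1 : 1 ≤ B
  b0 : 0 < β
  b1 : β ≤ 1
  l0 : 0 < lam
  l1 : lam ≤ 1
  kB : 64 * |(k : ℝ)| ≤ B ^ 3
  kl : 16 * |(k : ℝ)| ≤ (B * lam) ^ 3
  kb : 16 * |(k : ℝ)| ≤ (β * B) ^ 3
  l4 : lam ^ 4 * B ^ 3 ≤ β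
  dt : 120000000000 * |(k : ℝ)| * B ^ 9 * lam ^ 10 < 1

/-- binary form of degree `d` with the coefficients `g 0, ..., g d` -/
def bf (d : ℕ) (g : ℕ → ℝ) (u v : ℝ) : ℝ := ∑ i ∈ range (d + 1), g i * u ^ i * v ^ (d - i)

/-- `2 × 2` determinant of two integral vectors -/
def dt2 (v w : ℤ × ℤ) : ℤ := v.1 * w.2 - v.2 * w.1

/-- `2 × 2` determinant of two real vectors -/
def crr (v w : ℝ × ℝ) : ℝ := v.1 * w.2 - v.2 * w.1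

/-- `W` is a set of solutions of the Thue equation `G(w) = m`, `G = bf d g` integral on the group generated by `W`, with
at most `L` points on every line -/
structure TW (d L : ℕ) (m : ℝ) (g : ℕ → ℝ) (W : Finset (ℤ × ℤ)) : Prop where
  int : ∀ w ∈ AddSubgroup.closure (W : Set (ℤ × ℤ)), ∃ n : ℤ, bf d g (w.1 : ℝ) (w.2 : ℝ) = (n : ℝ)
  val : ∀ w ∈ W, bf d g (w.1 : ℝ) (w.2 : ℝ) = m
  lin : ∀ α α' γ : ℤ, (α ≠ 0 ∨ α' ≠ 0) → (W.filter fun w => α * w.1 + α' * w.2 = γ).card ≤ L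

/-- the quadratic form `a x² + b x y + c y²` -/
def q2 (a b c : ℤ) (w : ℤ × ℤ) : ℤ := a * w.1 ^ 2 + b * w.1 * w.2 + c * w.2 ^ 2

/-- its polar form (`b2 a b c w w = 2 q2 a b c w`) -/
def b2 (a b c : ℤ) (v w : ℤ × ℤ) : ℤ := 2 * a * v.1 * w.1 + b * (v.1 * w.2 + v.2 * w.1) + 2 * c * v.2 * w.2

/-- `p` has coordinates of absolute value `≤ B` -/
def Bd (B : ℝ) (p : Pt) : Prop := |(p.1 : ℝ)| ≤ B ∧ |(p.2.1 : ℝ)| ≤ B ∧ |(p.2.2 : ℝ)| ≤ B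

/-! ## Part 1: local geometry -/

/-- **SG2** (uses nothing; about 60 lines).
PROOF.  `z ≠ 0` as `|z| > B/2 > 0`.  Dividing `x³ + y³ + z³ = k` by `z³` gives the equation; `|k/z³| ≤ 8|k|/B³` and
`8|k|/B³ ≤ 1/8` (`kB`), `8|k|/B³ ≤ β³/2` (`kb`).  `β ≤ |ξ| ≤ |η| ≤ 1`.  If `η ≥ 0`, then `|ξ| ≤ η`, so `ξ³ + η³ ≥ 0` and
`1 ≤ ξ³ + η³ + 1 = k/z³ ≤ 1/8`, contradiction.  So `η < 0`, `-1 ≤ η`.  If `ξ > 0`, then `ξ ≥ β` and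
`k/z³ = ξ³ + (η³ + 1) ≥ β³ > β³/2`, contradiction.  So `ξ ≤ -β`, `-1 ≤ ξ`.  Finally
`1 = k/z³ - ξ³ - η³ ≤ 1/8 + 2 |η|³`, so `|η|³ ≥ 7/16 > 27/64`, `η ≤ -3/4`. -/
def StSG2 : Prop := ∀ (k : ℤ) (B β lam : ℝ), Par2 k B β lam → ∀ p : Pt, Gen2 k B β p →
  (-1 ≤ xi p ∧ xi p ≤ -β ∧ -1 ≤ et p ∧ et p ≤ -(3 / 4)) ∧
  xi p ^ 3 + et p ^ 3 + 1 = (k : ℝ) / (p.2.2 : ℝ) ^ 3 ∧ |(k : ℝ) / (p.2.2 : ℝ) ^ 3| ≤ 8 * |(k : ℝ)| / B ^ 3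

/-- **LD2** (uses nothing; about 180 lines; pure inequalities).  Third order expansion, uniform for small `|x|`.
PROOF.  `a₁ = -x²/y²`, `a₂ = -(x + y a₁²)/y²`, `a₃ = -(1 + a₁³ + 6 y a₁ a₂)/(3 y²)`, `c = a₃/a₂`; `v = u - a₁ t`,
`ρ = v - a₂ t²`.  `3 y² ≥ 27/16`, `|a₁| ≤ 16/9`.
(a) `u (y² + y(y+u) + (y+u)²) = e - t (x² + x(x+t) + (x+t)²)`; the first bracket is `≥ 27/16` (`y, y+u ≤ -3/4`), the second
is in `[0, 3]` (`x, x+t ∈ [-1, 0]`).  So `|u| ≤ (16/27)(λ³ + 3λ) ≤ 2.4 λ`.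
(b) `3 y² v = e - t² (2x + (x+t)) - u² (2y + (y+u))`, so `|v| ≤ (16/27)(λ³ + 3 λ² + 3 · 5.76 λ²) ≤ 12.7 λ²`; so
`|t v| ≤ 12.7 λ³`, `v² ≤ 162 λ⁴`.
(c) `3 y² ρ = e - t³ - u³ - 3 y v (u + a₁ t)` (as `u² = a₁² t² + v (u + a₁ t)`), so
`|ρ| ≤ (16/27)(1 + 1 + 13.9 + 3 · 12.7 · 4.2) λ³ ≤ 105 λ³`.
(d) `a₂ y⁵ = -x (x³ + y³) = x (1 - e₀)`, so `β/2 ≤ |a₂| ≤ 1.5/(3/4)⁵ ≤ 6.4`; `|a₃| ≤ (16/27)(1 + 5.7 + 6 · 1.8 · 6.4) ≤ 45`,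
`|c| ≤ 90/β`.
(e) `3 y² (ρ - a₃ t³) = e - v (u² + u a₁ t + a₁² t²) - 3 y (v² + 2 a₁ t ρ)`, so
`|ρ - a₃ t³| ≤ δ + (16/27)(12.7 · 13.2 + 3 (162 + 3.6 · 105)) λ⁴ ≤ δ + 1100 λ⁴`.
(f) `v - a₂ t² - c t v = ρ - c t v = (ρ - a₃ t³) - c t ρ` (as `t v = a₂ t³ + t ρ`), `|c t ρ| ≤ 9450 λ⁴/β`.  Sum
`≤ δ + 11000 λ⁴/β`. -/
def StLD2 : Prop := ∀ (β lam δ x y e0 : ℝ), 0 < β → β ≤ 1 → 0 < lam → lam ≤ 1 → 0 ≤ δ → δ ≤ lam ^ 3 →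
  -1 ≤ x → x ≤ -β → -1 ≤ y → y ≤ -(3 / 4) → x ^ 3 + y ^ 3 = -1 + e0 → |e0| ≤ 1 / 2 →
  ∃ a1 a2 c : ℝ, ∀ t u e : ℝ, |t| ≤ lam → |e| ≤ δ → -1 ≤ x + t → x + t ≤ 0 → -1 ≤ y + u → y + u ≤ -(3 / 4) →
    3 * x ^ 2 * t + 3 * x * t ^ 2 + t ^ 3 + 3 * y ^ 2 * u + 3 * y * u ^ 2 + u ^ 3 = e →
    |t * (u - a1 * t)| ≤ 20 * lam ^ 3 ∧ (u - a1 * t) ^ 2 ≤ 400 * lam ^ 4 ∧
    |(u - a1 * t) - a2 * t ^ 2 - c * (t * (u - a1 * t))| ≤ δ + 20000 * lam ^ 4 / β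

/-- **DE2** (uses `StSG2`, `StLD2`, `StDT6` (of PW); about 110 lines; compare `Pool.Agent.Helper96.PW.M_DET`).  Six generic
solutions of a patch.
PROOF.  `x = ξ(p₀)`, `y = η(p₀)`, `e₀ = k/z₀³` (`|e₀| ≤ 8|k|/B³ ≤ 1/8`), `tᵢ = ξ(pᵢ) - x`, `uᵢ = η(pᵢ) - y`,
`eᵢ = k/zᵢ³ - k/z₀³`, `|eᵢ| ≤ δ = 16|k|/B³ ≤ λ³` (`kl`).  Subtracting the equations of `StSG2` gives
`3x²t + 3xt² + t³ + 3y²u + 3yu² + u³ = e`.  `StLD2` and `StDT6` with `b₁ = λ`, `b₂ = λ²`, `b₃ = 20λ³`, `b₄ = 400λ⁴`,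
`b₅ = 20016|k|/B³ ≥ δ + 20000 λ⁴/β` (`l4`, `k1`).  The row `ver pᵢ` is `zᵢ² (X², XY, Y², X, Y, 1)`, so
`|det| ≤ B¹² · 720 · λ · λ² · 20λ³ · 400λ⁴ · 20016|k|/B³ ≤ 120000000000 |k| B⁹ λ¹⁰ < 1` (`dt`), and the integer `det` is `0`. -/
def StDE2 : Prop := ∀ (k : ℤ) (B β lam : ℝ), Par2 k B β lam → ∀ p0 : Pt, Gen2 k B β p0 → ∀ p : Fin 6 → Pt,
  (∀ i, Gen2 k B β (p i)) → (∀ i, |xi (p i) - xi p0| ≤ lam) →
  Matrix.det (Matrix.of fun i j : Fin 6 => ver (p i) j) = 0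

/-! ## Part 2: an elementary bound for Thue equations -/

/-- **TV** (uses nothing; about 90 lines).  Interpolation of a binary form.
PROOF.  The vector `(γ₀, ..., γ_d)` solves the linear system `Σ_l γ_l s_j^l t_j^(d-l) = b_j` (`j = 0, ..., d`,
`ω_j = (s_j, t_j)`).  Its matrix is a projective Vandermonde matrix (Mathlib `Matrix.projVandermonde`,
`Matrix.det_projVandermonde`): `|det| = Π_{i<j} |crr ω_i ω_j| ≥ σ^(number of pairs) ≥ σ^(d(d+1))` (`σ ≤ 1`).  Cramer's rule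
(`Matrix.cramer`, `Matrix.mulVec_cramer`): `det · γ_l` is the determinant with column `l` replaced by `b`, of absolute
value `≤ (d+1)! M` (all other entries are `≤ 1` in absolute value; Leibniz formula or `Matrix.det_le`). -/
def StTV : Prop := ∀ d : ℕ, ∃ K : ℝ, 1 ≤ K ∧ ∀ (σ M : ℝ) (ω : Fin (d + 1) → ℝ × ℝ) (γ : ℕ → ℝ), 0 < σ → σ ≤ 1 → 0 ≤ M →
  (∀ j, |(ω j).1| ≤ 1 ∧ |(ω j).2| ≤ 1) → (∀ i j, i ≠ j → σ ≤ |crr (ω i) (ω j)|) →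
  (∀ j, |bf d γ (ω j).1 (ω j).2| ≤ M) → ∀ l ≤ d, |γ l| ≤ K * M / σ ^ (d * (d + 1))

/-- **TC** (uses `StTV`; about 200 lines).  The case of `d + 1` well separated points.
PROOF.  Let `w₁, w₂` be the given pair, `D = |dt2 w₁ w₂| ≥ 1` maximal.  For `w ∈ ℤ²` let
`ω(w) = (dt2 w w₂ / dt2 w₁ w₂, dt2 w₁ w / dt2 w₁ w₂) ∈ ℝ²`, so `w = s w₁ + t w₂` for `ω(w) = (s, t)`; `ω` is additive, `|s|, |t| ≤ 1`
for `w ∈ W`, and `crr (ω w) (ω w') = dt2 w w' / dt2 w₁ w₂`.  Let `Γ(s, t) = G(s w₁ + t w₂)`, again a binary form of degree `d`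
(`= bf d γ`; expand, or obtain `γ` by a lemma `the forms of degree d are closed under linear substitutions`), so
`Γ(ω(w)) = G(w)` for `w ∈ ℤ²`.  By `StTV` at the `d + 1` given points (`M = |m|`): `|γ_l| ≤ Γ₀ := K |m|/σ^(d(d+1))`; `m` is a
nonzero integer (`int`, `val`), so `Γ₀ ≥ 1`.  Hence `|Γ(s, t)| ≤ (d + 1) Γ₀ r^d` if `|s|, |t| ≤ r`.
Put `ρ = 1/((d+1) √(2 (d+1) Γ₀))`; then `(d+1) ρ ≤ 1` and `(d+1) Γ₀ ((d+1) ρ)^d ≤ (d+1) Γ₀ ((d+1) ρ)² = 1/2` (`d ≥ 2`).  Divide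
`[-1, 1]²` into cells by `(⌊s/ρ⌋, ⌊t/ρ⌋)`: at most `(2/ρ + 2)² ≤ (4/ρ)²` cells.
CLAIM: two differences `v = w - w'`, `v' = w'' - w'` of points `w, w', w'' ∈ W` of one cell are parallel (`dt2 v v' = 0`).
Suppose not.  For `i = 0, ..., d` the vector `i v + v'` lies in the group generated by `W` and `ω(i v + v')` has coordinates
`≤ (d+1) ρ` in absolute value, so the integer `G(i v + v')` has absolute value `≤ 1/2`, it is `0`.  So the polynomial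
`X ↦ G(X v + v')` of degree `≤ d` has `d + 1` zeros and vanishes identically, and by homogeneity `G(a v + b v') = 0` for all
real `a` and `b ≠ 0`, i.e. `G = 0` outside the line `ℝ v`.  As `dt2 w₁ w₂ ≠ 0`, one of `w₁, w₂` is not in `ℝ v`, but
`G(w₁) = G(w₂) = m ≠ 0`, contradiction.
So the points of one cell lie on a line (if it has two different points `w, w'`, all points satisfy
`dt2 (w - w') w'' = dt2 (w - w') w'`), and a cell has `≤ L` points.  Sum: `card ≤ 16 L/ρ² = 32 L (d+1)³ Γ₀`. -/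
def StTC : Prop := ∀ d L : ℕ, 2 ≤ d → 1 ≤ L → ∃ K : ℝ, 1 ≤ K ∧ ∀ (m σ : ℝ) (g : ℕ → ℝ) (W : Finset (ℤ × ℤ))
  (w1 w2 : ℤ × ℤ), m ≠ 0 → 0 < σ → σ ≤ 1 → TW d L m g W → w1 ∈ W → w2 ∈ W → dt2 w1 w2 ≠ 0 →
  (∀ w ∈ W, ∀ w' ∈ W, |dt2 w w'| ≤ |dt2 w1 w2|) →
  (∃ p : Fin (d + 1) → ℤ × ℤ, (∀ j, p j ∈ W) ∧ ∀ i j, i ≠ j → σ * |(dt2 w1 w2 : ℝ)| ≤ |(dt2 (p i) (p j) : ℝ)|) →
  (W.card : ℝ) ≤ K * |m| / σ ^ (d * (d + 1))

/-- **TS** (uses nothing; about 150 lines).  Splitting when there are no `d + 1` separated points.  (`D = |dt2 w₁ w₂|`.)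
PROOF.  `ω(w) = (dt2 w w₂ / dt2 w₁ w₂, dt2 w₁ w / dt2 w₁ w₂)`, both coordinates `≤ 1` in absolute value for `w ∈ W` and
`crr (ω w) (ω w') = dt2 w w' / dt2 w₁ w₂` (identity `dt2 w w₂ · dt2 w₁ w' - dt2 w₁ w · dt2 w' w₂ = dt2 w w' · dt2 w₁ w₂`).
Let `W₀` be the set of the `w ∈ W` with both coordinates of `ω(w)` `< σ^(1/3)` in absolute value; for
`w, w' ∈ W₀`: `|crr| ≤ 2 σ^(2/3)`.  Among the subsets `P ⊆ W \ W₀` with `|crr (ω w) (ω w')| ≥ σ` for all `w ≠ w'` in `P` take one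
with maximal cardinality; `card P ≤ d` by hypothesis (enumerate `d + 1` elements by an embedding of `Fin (d + 1)`).  By
maximality every `w ∈ W \ W₀` satisfies `|crr (ω w) (ω s)| < σ` for some `s ∈ P` (`w` itself if `w ∈ P`; note
`crr x x = 0 < σ`): `W_s = {w ∈ W \ W₀ : |crr (ω w) (ω s)| < σ}`.  For `w, w' ∈ W_s` and `s = (s₁, s₂)` (short for `ω(s)`):
`s₁ crr(ω, ω') = ω₁ crr(s, ω') - ω₁' crr(s, ω)` and `s₂ crr(ω, ω') = ω₂ crr(s, ω') - ω₂' crr(s, ω)`, so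
`max(|s₁|, |s₂|) |crr(ω, ω')| ≤ 2σ`, `|crr(ω, ω')| ≤ 2 σ^(2/3)`.  In all cases `2 σ^(2/3) ≤ σ^(1/2)` as `σ ≤ 1/64`.  The parts
are `W₀` and the `W_s`, `s ∈ P`: at most `d + 1` parts.  (To avoid real powers of `σ` let `σ = τ^6`: `σ^(1/3) = τ²`,
`σ^(2/3) = τ⁴`, `σ^(1/2) = τ³`, `2 τ⁴ ≤ τ³` as `τ ≤ 1/2`.) -/
def StTS : Prop := ∀ (d : ℕ) (τ : ℝ) (W : Finset (ℤ × ℤ)) (w1 w2 : ℤ × ℤ), 0 < τ → τ ≤ 1 / 2 → dt2 w1 w2 ≠ 0 →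
  w1 ∈ W → w2 ∈ W → (∀ w ∈ W, ∀ w' ∈ W, |dt2 w w'| ≤ |dt2 w1 w2|) →
  (¬ ∃ p : Fin (d + 1) → ℤ × ℤ, (∀ j, p j ∈ W) ∧
    ∀ i j, i ≠ j → τ ^ 6 * |(dt2 w1 w2 : ℝ)| ≤ |(dt2 (p i) (p j) : ℝ)|) →
  ∃ V : Fin (d + 1) → Finset (ℤ × ℤ), (∀ i, V i ⊆ W) ∧ (∀ w ∈ W, ∃ i, w ∈ V i) ∧
    ∀ i, ∀ w ∈ V i, ∀ w' ∈ V i, |(dt2 w w' : ℝ)| ≤ τ ^ 3 * |(dt2 w1 w2 : ℝ)|

/-- **TR** (uses `StTC`, `StTS`; about 150 lines).  Few solutions of Thue equations, uniformly in the form.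
PROOF.  `TW` passes to subsets of `W`.  Let `0 < τ ≤ 1/2`.  CLAIM: for all `r : ℕ`, all `g`, `W` with `TW d L m g W` and all
`X ≥ 0` with `X (τ³)^r < 1` and `|dt2 w w'| ≤ X` on `W`: `card W ≤ (d+1)^r (L + K |m|/τ^(6d(d+1)))`.  Induction on `r`.  If all
`dt2 w w'` are `0` (in particular if `r = 0`): `W` is empty, or `W = {0}`, or it contains `w₁ ≠ 0` and lies on the line
`dt2 w₁ w = 0`: `card W ≤ L` (`L ≥ 1`).  Otherwise (`r ≥ 1`) choose `w₁, w₂ ∈ W` with `|dt2 w₁ w₂|` maximal (`≠ 0`).  If there are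
`d + 1` points with pairwise `|dt2| ≥ τ⁶ |dt2 w₁ w₂|`, then `StTC` (`σ = τ⁶`).  Otherwise `StTS`: `d + 1` parts with
`|dt2| ≤ τ³ |dt2 w₁ w₂| ≤ τ³ X`, and induction.
THE BOUND.  Given `ε`, let `ε' = ε/(6d(d+1))`, `τ = min(B^(-ε'), 1/2)`, `r = ⌊1/(3ε')⌋₊ + 1`.  If `B^(-ε') ≤ 1/2` (so `B > 1`)
then `B (τ³)^r = B^(1-3ε'r) < 1`.  If `B^(-ε') > 1/2`, i.e. `B < 2^(1/ε')`, then `τ = 1/2` and `B (1/8)^r < 2^(1/ε' - 3r) ≤ 1`.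
In both cases `1/τ ≤ 2 B^(ε')`, so `τ^(-6d(d+1)) ≤ 64^(d(d+1)) B^ε`.  So `C = (d+1)^r (L + K |m| 64^(d(d+1)))`. -/
def StTR : Prop := ∀ (d L : ℕ) (m ε : ℝ), 2 ≤ d → 1 ≤ L → m ≠ 0 → 0 < ε → ∃ C : ℝ, 0 < C ∧
  ∀ (B : ℝ) (g : ℕ → ℝ) (W : Finset (ℤ × ℤ)), 1 ≤ B → TW d L m g W →
  (∀ w ∈ W, ∀ w' ∈ W, |(dt2 w w' : ℝ)| ≤ B) → (W.card : ℝ) ≤ C * B ^ ε

/-- **GC** (uses nothing; about 100 lines).  The polynomials `F(u e₁ + v e₂)` and `F(cur (u, v))/c³` are binary forms.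
PROOF.  Call `f : ℝ → ℝ → ℝ` a form of degree `d` if `f = bf d g` for some `g`.  Sums and multiples of forms of degree `d`
are such forms, the product of forms of degrees `a` and `b` is a form of degree `a + b` (Cauchy product:
coefficients `Σ_{i+j=n} g_i h_j`, with `g_i = 0` for `i > a`, `h_j = 0` for `j > b`; or via the polynomials `Σ g_i X^i` of
degree `≤ a` and homogenization), and linear forms are forms of degree `1`.  The coordinates of `lf e₁ e₂ w` are linear,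
`qq Q f₁ f₂ w` is quadratic, `lb` is linear, so the coordinates of `cur` are forms of degree `2` and `Fm (cur w)` is a form of
degree `6`. -/
def StGC : Prop := (∀ e1 e2 : Pt, ∃ g : ℕ → ℝ, ∀ w : ℤ × ℤ,
    bf 3 g (w.1 : ℝ) (w.2 : ℝ) = (Fm (lf e1 e2 w) : ℝ)) ∧
  ∀ (Q : Fin 6 → ℤ) (p0 f1 f2 : Pt) (c : ℤ), ∃ g : ℕ → ℝ, ∀ w : ℤ × ℤ,
    bf 6 g (w.1 : ℝ) (w.2 : ℝ) = (Fm (cur Q p0 f1 f2 w) : ℝ) / (c : ℝ) ^ 3

/-! ## Part 3: the divisors `c` -/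

/-- **PAR** (uses nothing; about 170 lines).  For the zeros of a binary quadratic form modulo `ℓ^e` incompatibility
(`ℓ^e ∤ b2 w w'`) is a parity: among three zeros the number of incompatible pairs is `0` or `2`.
PROOF.  Replace the three vectors by their images under a matrix of `SL₂(ℤ)` (and `q` by the transformed form: values and
polar form do not change); so we may assume `w₁ = (1, 0)` (`w₁` is coprime).  Then `q = α x² + β x y + γ y²` with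
`α = q(w₁) ≡ 0 (mod ℓ^e)`.  Write `w = w₂ = (x, y)`, `w' = w₃ = (x', y')`, `A = β x + γ y`, `A' = β x' + γ y'`.  Modulo `ℓ^e`:
`q(w) ≡ y A ≡ 0`, `y' A' ≡ 0`, `b2 w₁ w ≡ β y`, `b2 w₁ w' ≡ β y'`, `b2 w w' ≡ y' A + y A'`.  Valuations at `ℓ` (`v(0) = ∞`): `r = v(β)`,
`s = v(y)`, `s' = v(y')`; `v(A) ≥ e - s`, `v(A') ≥ e - s'`; if `ℓ ∣ y` then `ℓ ∤ x`.
(1) Both compatible with `w₁` (`r + s ≥ e`, `r + s' ≥ e`): `q(w) ≡ γ y²`, `q(w') ≡ γ y'²`, so `v(γ) + 2s ≥ e`, `v(γ) + 2s' ≥ e`,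
`v(γ) + s + s' ≥ e`, and `b2 w w' ≡ 2 γ y y' ≡ 0`.
(2) `w` compatible, `w'` not: `r + s' < e ≤ r + s`, so `s > s'`, `s ≥ 1`, `ℓ ∤ x`, `v(β x) = r`, `v(A') ≥ e - s' > r`.  If `s' ≥ 1` then
`ℓ ∤ x'`, `v(β x') = r`, so `v(γ y') = r`, `v(γ) = r - s'`, `v(γ y) = r - s' + s > r`.  If `s' = 0` then `v(γ) = v(γ y') ≥ r`, so
`v(γ y) ≥ r + s > r`.  In both cases `v(A) = r`, `v(y' A) = r + s' < e`, but `v(y A') ≥ s + e - s' ≥ e`: `b2 w w'` is not `≡ 0`.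
(3) Both incompatible: `r + s < e`, `r + s' < e`, `v(A), v(A') > r`.  If `s > s'`: `ℓ ∤ x`, `v(β x) = r`, so `v(γ y) = r`,
`v(γ) = r - s`; if `s' ≥ 1`, in the same way `v(γ) = r - s'`, contradiction; if `s' = 0`, `v(γ y') = r - s < r ≤ v(β x')`, so
`v(A') = r - s < r`, contradiction.  So (symmetry) `s = s'` and `v(y' A), v(y A') ≥ e`: compatible. -/
def StPAR : Prop := ∀ (l e : ℕ), l.Prime → ∀ (a b c : ℤ) (w1 w2 w3 : ℤ × ℤ),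
  IsCoprime w1.1 w1.2 → IsCoprime w2.1 w2.2 → IsCoprime w3.1 w3.2 →
  (l : ℤ) ^ e ∣ q2 a b c w1 → (l : ℤ) ^ e ∣ q2 a b c w2 → (l : ℤ) ^ e ∣ q2 a b c w3 →
  ((l : ℤ) ^ e ∣ b2 a b c w2 w3 ↔ ((l : ℤ) ^ e ∣ b2 a b c w1 w2 ↔ (l : ℤ) ^ e ∣ b2 a b c w1 w3))

/-- **CB** (uses `StPAR`; about 100 lines).  Labels.
PROOF.  `W` empty: trivial.  Otherwise fix `w₁ ∈ W`, `n = |c|`, and let `f(w)` be the set of the primes `ℓ ∣ n` such that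
`ℓ^(v_ℓ(n)) ∤ b2 w₁ w`.  If `f(w) = f(w')`, then by `StPAR` `ℓ^(v_ℓ(n)) ∣ b2 w w'` for every prime `ℓ ∣ n`, so `c ∣ b2 w w'`
(`Nat.factorization_prod_pow_eq_self` and coprimality, or `Nat.dvd_of_factors_...`).  The labels are subsets of
`n.primeFactors`, and `2^(card primeFactors) ≤ card divisors` (`Nat.card_divisors`: `∏ (v_ℓ(n) + 1)`). -/
def StCB : Prop := ∀ (a b e c : ℤ) (W : Finset (ℤ × ℤ)), c ≠ 0 →
  (∀ w ∈ W, IsCoprime w.1 w.2 ∧ c ∣ q2 a b e w) →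
  ∃ f : ℤ × ℤ → Finset ℕ, (W.image f).card ≤ c.natAbs.divisors.card ∧
    ∀ w ∈ W, ∀ w' ∈ W, f w = f w' → c ∣ b2 a b e w w'

/-- **MA2** (uses `StTR`, `StGC`, `StCB`, `StLN6` (of PW); about 220 lines).  The solutions on a conic with fixed `c`.
PROOF.  `k ≠ 0` as `0` is a cube.  Choose `a, g, w = (u, v)` for every `p ∈ S`.  From `c p = cur w`, `p = a p₀ + g lf w`,
`lb w = g c`: `(c a + qq w) p₀ = 0`, so `qq w = - c a`: `c ∣ qq w`, `c ∣ lb w`.  `w` determines `p` (`c p = cur w`, `c ≠ 0`), so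
`card S = card W`, `W` = set of the `w`; `Fm (cur w) = c³ k`, and if `cur w = cur w'` for `w, w' ∈ W`, then `p = p'`, `w = w'`.  So by
`StLN6` every line contains `≤ 6` points of `W`.  `qq Q f₁ f₂ (u, v) = q2 A B E (u, v)` with `A = Qf Q f₁`, `B = Bf Q f₁ f₂`,
`E = Qf Q f₂`.  `StCB` gives the labels; let `V ⊆ W` be a class with one label.  By induction over the closure (twice: first
`∀ w' ∈ V, c ∣ b2 w w'`, then `∀ w' ∈ closure V, c ∣ b2 w w'`, finally `c ∣ q2 w` with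
`q2 (w + w') = q2 w + q2 w' + b2 w w'`, `q2 (-w) = q2 w`): for all `w` in the group generated by `V`: `c ∣ qq w`, `c ∣ lb w`
(linear).  So all coordinates of `cur w` are divisible by `c` and `Fm (cur w)/c³` is an integer: `TW 6 6 k g V` for the `g`
of `StGC`.  For `p, p' ∈ S`: `det3 p₀ p p' = g g' dt2 w w' · det3 p₀ f₁ f₂`, `|det3 p₀ p p'| ≤ 6 B³`, so `|dt2 w w'| ≤ 6 B³`.  `StTR` with
`ε/3` and `6 B³`: `card V ≤ C (6 B³)^(ε/3) ≤ C' B^ε`; there are `≤ τ(|c|)` classes. -/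
def StMA2 : Prop := ∀ (k : ℤ) (ε : ℝ), NC k → 0 < ε → ∃ C : ℝ, 0 < C ∧ ∀ (B : ℝ) (Q : Fin 6 → ℤ) (p0 f1 f2 : Pt),
  1 ≤ B → Bd B p0 → det3 p0 f1 f2 = 1 → ∀ c : ℤ, c ≠ 0 → ∀ S : Finset Pt,
  (∀ p ∈ S, Fm p = k ∧ Bd B p ∧ ∃ a g u v : ℤ, 1 ≤ g ∧ IsCoprime u v ∧
    lb Q p0 f1 f2 (u, v) = g * c ∧ p = a • p0 + g • lf f1 f2 (u, v) ∧ c • p = cur Q p0 f1 f2 (u, v)) →
  (S.card : ℝ) ≤ C * c.natAbs.divisors.card * B ^ ε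

/-- **PL2** (uses `StTR`, `StGC`, `StBAS`, `StLN3` (the last two of PW); about 150 lines).  The solutions in a plane.
PROOF.  Divide `N` by the gcd of its coordinates: `N` primitive (`Prm N`), the plane `dot N p = 0` does not change.  `StBAS`
gives `f₁, f₂` with `det3 N f₁ f₂ = 1`.  Put `e₁ = crs f₂ N`, `e₂ = crs N f₁`, and `w(p) = (dot f₁ p, dot f₂ p)`.  Identity:
`det3 N f₁ f₂ • p = dot N p • crs f₁ f₂ + dot f₁ p • crs f₂ N + dot f₂ p • crs N f₁`, so `p = lf e₁ e₂ (w p)` on the plane; `w` is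
injective on `S`; `W` = image.  `StGC`: `bf 3 g w = Fm (lf e₁ e₂ w)` is an integer for all `w ∈ ℤ²` and `= k` on `W`.  A line
`α w.1 + α' w.2 = γ`, `(α, α') ≠ 0`, corresponds to `dot M p = γ` with `M = α f₁ + α' f₂`, and `crs N M ≠ 0` as
`det3 N f₁ f₂ ≠ 0` (`dot f₂ (crs N M) = ± α`, `dot f₁ (crs N M) = ± α'`), so by `StLN3` it contains `≤ 3` points:
`TW 3 3 k g W`.  `crs p p' = dt2 w w' • crs e₁ e₂ = dt2 w w' • N`, one coordinate of `N` is a nonzero integer and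
the coordinates of `crs p p'` are `≤ 2 B²`, so `|dt2 w w'| ≤ 2 B²`.  `StTR` with `ε/2` and `2 B²` (`k ≠ 0` as `0` is a cube). -/
def StPL2 : Prop := ∀ (k : ℤ) (ε : ℝ), NC k → 0 < ε → ∃ C : ℝ, 0 < C ∧ ∀ (B : ℝ) (N : Pt) (S : Finset Pt), 1 ≤ B →
  N ≠ 0 → (∀ p ∈ S, Fm p = k ∧ Bd B p ∧ dot N p = 0) → (S.card : ℝ) ≤ C * B ^ ε

/-- **PA2** (uses `StDE2`, `StRNK`, `StBAS`, `StCON`, `StDIS`, `StDEG`, `StDIV`, `StPL2`, `StMA2`; about 200 lines; compare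
`Pool.Agent.Helper92.PW.M_PAT`).  The bound for a patch.
PROOF.  `S` empty: trivial.  Take `p₀ ∈ S`.  By `StDE2` all `6 × 6` determinants vanish, `StRNK` (`M = B`) gives
`Q ≠ 0` with `|Q j| ≤ (6B²)⁵` vanishing on `S`; `StBAS` gives `f₁, f₂`.  If `b = 0` or `R = 0`: `StDEG` and `StPL2` twice.
Otherwise `n = |R|`, `1 ≤ n ≤ 8 ((6B²)⁵)³`.  The points with `b(u', v') = 0` lie in a plane: `StPL2`.  The others: `StCON` gives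
`c ∣ R`, `c ≠ 0`; there are `2 τ(n)` possible values of `c`, and `StMA2` with `τ(|c|) ≤ τ(n)`: `≤ 2 τ(n)² C B^(ε/2)`; by `StDIV`
with `ε/120`: `τ(n)² ≤ C B^(30 · 2 · ε/120)`. -/
def StPA2 : Prop := ∀ (k : ℤ) (ε : ℝ), NC k → 0 < ε → ∃ C : ℝ, 0 < C ∧ ∀ (B β lam : ℝ), Par2 k B β lam →
  ∀ S : Finset Pt, (∀ p ∈ S, Gen2 k B β p) → (∀ p ∈ S, ∀ q ∈ S, |xi p - xi q| ≤ lam) → (S.card : ℝ) ≤ C * B ^ ε

/-! ## Part 4: counting -/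

/-- **GE2** (uses `StPA2`, `StSG2`; about 170 lines; compare `Pool.Agent.Helper32.PW.M_GEN`).  The generic solutions with
`|x| ≤ X`.
PROOF.  `k ≠ 0`; we may assume `ε ≤ 1/100`.  `ε₁ = ε/2`, `β = B^(-3/5)`, `λ = B^(-9/10-ε₁)`.  For `B ≥ B₀` `Par2 k B β λ` holds:
`B³ → ∞`, `(Bλ)³ = B^(3/10 - 3ε₁) → ∞`, `(βB)³ = B^(6/5) → ∞`, `λ⁴B³ = B^(-3/5-4ε₁) ≤ β`, `B⁹λ¹⁰ = B^(-10ε₁) → 0`.
Partition by `j = ⌊-ξ(p)/λ⌋₊`; `0 ≤ -ξ(p) ≤ X/(B/2)` (`StSG2`: `ξ < 0`), so `j ≤ 2X/(Bλ)` and there are at most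
`2X/(Bλ) + 1 = 2 X B^(-1/10+ε₁) + 1` classes, in each `|ξ - ξ'| ≤ λ`.  `StPA2` with `ε₁`: each class has `≤ C B^(ε₁)` points. -/
def StGE2 : Prop := ∀ (k : ℤ) (ε : ℝ), NC k → 0 < ε → ∃ C B0 : ℝ, 0 < C ∧ 1 ≤ B0 ∧ ∀ B X : ℝ, B0 ≤ B → 0 ≤ X →
  ∀ S : Finset Pt, (∀ p ∈ S, Gen2 k B (B ^ (-(3 / 5) : ℝ)) p ∧ |(p.1 : ℝ)| ≤ X) →
  (S.card : ℝ) ≤ C * (X * B ^ (-(1 / 10) : ℝ) + 1) * B ^ ε

/-- **DV2** (uses `StDIV`; about 130 lines).  Solutions with small `x`.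
PROOF.  For fixed `x` let `n = k - x³ ≠ 0` (`NC`).  `(y + z)(y² - y z + z²) = n`, so `s = y + z` divides `n`, `s ≠ 0`, and for given
`x, s` the product `y z = (s² - n/s)/3` is determined, so `{y, z}` is the set of roots of a quadratic: at most `2` pairs
`(y, z)`.  There are `2 τ(|n|)` values of `s`, so at most `4 τ(|n|)` points for given `x`, `|n| ≤ |k| + B³ ≤ (|k| + 1) B³`, by
`StDIV` with `ε/3` `≤ C B^ε`.  There are `≤ 2X + 1` values of `x`. -/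
def StDV2 : Prop := ∀ (k : ℤ) (ε : ℝ), NC k → 0 < ε → ∃ C : ℝ, 0 < C ∧ ∀ B X : ℝ, 1 ≤ B → 0 ≤ X →
  ∀ S : Finset Pt, (∀ p ∈ S, Fm p = k ∧ Bd B p ∧ |(p.1 : ℝ)| ≤ X) → (S.card : ℝ) ≤ C * (X + 1) * B ^ ε

/-- **DY3** (uses `StGE2`, `StDV2`; about 100 lines).  Primitive sorted solutions in a dyadic range with smallest
coordinate `≤ X`.
PROOF.  `B < B₀`: `StDV2` with `min(X, B)` (`|x| ≤ |z| ≤ B`): `≤ C (B₀ + 1) B₀^ε`, and the right side is `≥ C`.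
`B ≥ B₀`: those with `|x| ≥ B^(-3/5) B` are bounded by `StGE2`; the others by `StDV2` with `X' = B^(2/5)`:
`≤ C (B^(2/5) + 1) B^ε`. -/
def StDY3 : Prop := ∀ (k : ℤ) (ε : ℝ), NC k → 0 < ε → ∃ C : ℝ, 0 < C ∧ ∀ B X : ℝ, 1 ≤ B → 0 ≤ X →
  ∀ S : Finset Pt, (∀ p ∈ S, Fm p = k ∧ Prm p ∧ |(p.1 : ℝ)| ≤ |(p.2.1 : ℝ)| ∧ |(p.2.1 : ℝ)| ≤ |(p.2.2 : ℝ)| ∧
    B / 2 < |(p.2.2 : ℝ)| ∧ |(p.2.2 : ℝ)| ≤ B ∧ |(p.1 : ℝ)| ≤ X) →
  (S.card : ℝ) ≤ C * (X * B ^ (-(1 / 10) : ℝ) + B ^ (2 / 5 : ℝ)) * B ^ ε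

/-- **DY4** (uses `StDY3`; about 150 lines; compare `Pool.Agent.Helper38.PW.M_DYA`).  All solutions in a dyadic range with
smallest coordinate `≤ X`.
PROOF.  For `p ∈ T` let `d = gcd(x, y, z) ≥ 1`; `d³ ∣ k`, `k ≠ 0`, so `d ≤ |k|`; `p = d p'`, `p'` primitive, `Fm p' = k/d³`, not a
cube.  For fixed `d` with `d³ ∣ k` and a fixed permutation sorting the absolute values (six of them) the permuted points
`p'` satisfy the hypothesis of `StDY3` for `k/d³`, `B/d` (`≥ 1` as `p' ≠ 0`) and `X` (the smallest coordinate is `≤ X/d ≤ X`).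
`X (B/d)^(-1/10) + (B/d)^(2/5) ≤ d (X B^(-1/10) + B^(2/5))`.  Sum over `d` and the permutations. -/
def StDY4 : Prop := ∀ (k : ℤ) (ε : ℝ), NC k → 0 < ε → ∃ C : ℝ, 0 < C ∧ ∀ B X : ℝ, 1 ≤ B → 0 ≤ X →
  ∀ T : Finset Pt, (∀ p ∈ T, Fm p = k ∧ B / 2 < max |(p.1 : ℝ)| (max |(p.2.1 : ℝ)| |(p.2.2 : ℝ)|) ∧
    max |(p.1 : ℝ)| (max |(p.2.1 : ℝ)| |(p.2.2 : ℝ)|) ≤ B ∧ |(p.2.2 : ℝ)| ≤ X) →
  (T.card : ℝ) ≤ C * (X * B ^ (-(1 / 10) : ℝ) + B ^ (2 / 5 : ℝ)) * B ^ ε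

/-- **FI3** (uses `StDY4`, `StSK`; about 200 lines; compare `Pool.Agent.Helper95.PW.M_FIN`, `Pool.Agent.Helper21.PW.M_HGT`).
The theorem.
PROOF.  We may assume `ε ≤ 1/100`, `Z ≥ 2` (for `1 ≤ Z < 2` use the bound for `Z = 2`).  `Z₁ = ⌈Z⌉₊`,
`M = ⌈Z^(11/10)⌉₊ ≥ Z₁`.  Let `T` be a finite set of solutions with `|z| ≤ Z`.
(a) Those with `max(|x|, |y|) ≥ M`: `StSK`: `≤ C Z₁²/M log Z₁ ≤ C (2Z)²/Z^(11/10) log(2Z) ≤ C' Z^(9/10+ε)`.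
(b) The others have height `≤ max(M, Z) ≤ 2 Z^(11/10)`.  For `B = 2^i` (`i ≥ 0`) let `T_i` be those with height in
`(2^i/2, 2^i]`; the height is an integer `≥ 1` (`k ≠ 0`), so these `T_i` with `2^i ≤ 4 Z^(11/10)` cover; their number is
`≤ log₂(4 Z^(11/10)) + 1 ≤ C Z^(ε/8)`.  `StDY4` with `ε/8` and `X = min(Z, 2^i)` (`|z| ≤ Z` and `|z| ≤ 2^i`):
`X B^(-1/10) ≤ Z^(9/10)` (for `B ≤ Z` it is `B^(9/10)`, for `B > Z` it is `Z B^(-1/10)`), `B^(2/5) ≤ 4 Z^(11/25) ≤ 4 Z^(9/10)`,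
`B^(ε/8) ≤ 4 Z^(ε/4)`.  So each `T_i` has `≤ C Z^(9/10 + ε/4)` elements, the sum is `≤ C Z^(9/10+ε)`.
Every finite subset of the solution set has cardinality `≤ C Z^(9/10+ε)`, hence the set is finite and the bound
holds for it. -/
def StFI3 : Prop := ∀ k : ℤ, (∀ m : ℤ, m ^ 3 ≠ k) → ∀ ε : ℝ, 0 < ε → ∃ C : ℝ, ∀ Z : ℝ, 1 ≤ Z →
  {p : ℤ × ℤ × ℤ | p.1 ^ 3 + p.2.1 ^ 3 + p.2.2 ^ 3 = k ∧ |(p.2.2 : ℝ)| ≤ Z}.Finite ∧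
  (({p : ℤ × ℤ × ℤ | p.1 ^ 3 + p.2.1 ^ 3 + p.2.2 ^ 3 = k ∧ |(p.2.2 : ℝ)| ≤ Z}.ncard : ℕ) : ℝ) ≤
    C * Z ^ (9 / 10 + ε : ℝ)

end Pool.Agent.Helper92.PU
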