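import Pool.Agent.Helper92.PU.M_PA2
import Pool.Agent.Helper92.PW.M_RC
import Pool.Agent.Helper92.PW.M_DIS
import Pool.Agent.Helper83.PW.M_POL
import Pool.Agent.Helper44.PW.M_LN3
import Pool.Agent.Helper9.PW.M_CON
import Pool.Agent.Helper9.PW.M_LN6
import Pool.Agent.Helper37.PW.M_DEG
import Pool.Agent.Helper91.PW.M_RNK
import Pool.Agent.Helper10.PW.M_DT6
import Pool.Agent.Helper15.AB.M_DB
import Pool.Agent.Helper29.PU.M_SG2
import Pool.Agent.Helper42.PU.M_DE2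
import Pool.Agent.Helper60.PU.M_TV
import Pool.Agent.Helper26.PU.M_TS
import Pool.Agent.Helper6.PU.M_TR
import Pool.Agent.Helper64.PU.M_CB
import Pool.Agent.Helper72.PU.M_MA2
import Pool.Agent.Helper36.PU.M_GE2
import Pool.Agent.Helper32.PU.M_DY3
import Pool.Agent.Helper36.PU.M_FI3
import Pool.Agent.Helper95.PU.M_LD2
import Pool.Agent.Helper51.PU.M_TC
import Pool.Agent.Helper80.PU.M_GC
import Pool.Agent.Helper36.PU.M_PAR
import Pool.Agent.Helper94.PU.M_PL2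
import Pool.Agent.Helper42.PU.M_DV2
import Pool.Agent.Helper41.PU.M_DY4

/-! # Project PU: assembly -/

set_option autoImplicit false

namespace Pool.Agent.Helper92.PU

open Pool.Agent.Helper92.PW

theorem bDIV : StDIV := by
  intro ε hε
  obtain ⟨C, hC, h⟩ := Pool.Agent.Helper15.AB.hDB ε hε
  exact ⟨C, by linarith, h⟩

theorem bLN3 : StLN3 := Pool.Agent.Helper44.PW.hLN3 Pool.Agent.Helper83.PW.hPOL hRC

theorem bLN6 : StLN6 := Pool.Agent.Helper9.PW.hLN6 Pool.Agent.Helper83.PW.hPOL hRC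

theorem asm (hSK : StSK) : StFI3 := by
  have hTR : StTR := Pool.Agent.Helper6.PU.hTR (Pool.Agent.Helper51.PU.hTC Pool.Agent.Helper60.PU.hTV)
    Pool.Agent.Helper26.PU.hTS
  have hDE2 : StDE2 := Pool.Agent.Helper42.PU.hDE2 Pool.Agent.Helper29.PU.hSG2 Pool.Agent.Helper95.PU.hLD2
    Pool.Agent.Helper10.PW.hDT6
  have hMA2 : StMA2 := Pool.Agent.Helper72.PU.hMA2 hTR Pool.Agent.Helper80.PU.hGC
    (Pool.Agent.Helper64.PU.hCB Pool.Agent.Helper36.PU.hPAR) bLN6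
  have hPA : StPA2 := hPA2 hDE2 Pool.Agent.Helper91.PW.hRNK hBAS Pool.Agent.Helper9.PW.hCON hDIS
    Pool.Agent.Helper37.PW.hDEG bDIV (Pool.Agent.Helper94.PU.hPL2 hTR Pool.Agent.Helper80.PU.hGC hBAS bLN3) hMA2
  exact Pool.Agent.Helper36.PU.hFI3 (Pool.Agent.Helper41.PU.hDY4 (Pool.Agent.Helper32.PU.hDY3
    (Pool.Agent.Helper36.PU.hGE2 hPA Pool.Agent.Helper29.PU.hSG2) (Pool.Agent.Helper42.PU.hDV2 bDIV))) hSK

end Pool.Agent.Helper92.PU
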