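import Pool.Agent.Helper92.PU.St
import Pool.Agent.Helper92.PW.M_PAT

/-! # PU MODULE PA2 -/

set_option autoImplicit false

open Finset

noncomputable section

namespace Pool.Agent.Helper92.PU

open Pool.Agent.Helper92.PW

theorem bd_PA2 {k : ℤ} {B β : ℝ} {p : Pt} (h : Gen2 k B β p) : Bd B p :=
  ⟨(h.xy.trans h.yz).trans h.z_le, h.yz.trans h.z_le, h.z_le⟩

theorem ver_le_PA2 (B : ℝ) (p : Pt) (h : Bd B p) (hB : 1 ≤ B) (j : Fin 6) :
    |(ver p j : ℝ)| ≤ B ^ 2 := by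
  obtain ⟨hx, hy, hz⟩ := h
  have key : ∀ a b : ℝ, |a| ≤ B → |b| ≤ B → |a * b| ≤ B ^ 2 := by
    intro a b ha hb
    rw [abs_mul, pow_two]
    exact mul_le_mul ha hb (abs_nonneg _) (by linarith)
  have key2 : ∀ a : ℝ, |a| ≤ B → |a ^ 2| ≤ B ^ 2 := by
    intro a ha
    rw [pow_two a]
    exact key a a ha ha
  fin_cases j
  · simpa [ver] using key2 _ hx
  · simpa [ver] using key _ _ hx hy
  · simpa [ver] using key2 _ hy
  · simpa [ver] using key _ _ hx hz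
  · simpa [ver] using key _ _ hy hz
  · simpa [ver] using key2 _ hz

theorem tau_PA2 (hDIV : StDIV) (ε : ℝ) (hε : 0 < ε) : ∃ C : ℝ, 0 < C ∧ ∀ (B : ℝ) (n : ℕ), 1 ≤ B → 1 ≤ n →
    (n : ℝ) ≤ 8 * ((6 * B ^ 2) ^ 5) ^ 3 → (n.divisors.card : ℝ) ^ 2 ≤ C * B ^ (ε / 2) := by
  obtain ⟨C, hC, h⟩ := hDIV (ε / 120) (by positivity)
  refine ⟨C ^ 2 * (8 * 6 ^ 15 : ℝ) ^ (ε / 60), by positivity, ?_⟩
  intro B n hB hn hnB
  have h1 := h n hn
  have h2 : (n : ℝ) ≤ (8 * 6 ^ 15) * B ^ 30 := by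
    calc (n : ℝ) ≤ 8 * ((6 * B ^ 2) ^ 5) ^ 3 := hnB
      _ = (8 * 6 ^ 15) * B ^ 30 := by ring
  have hn0 : (0 : ℝ) ≤ n := Nat.cast_nonneg n
  have hB0 : (0 : ℝ) ≤ B := by linarith
  have h3 : (n.divisors.card : ℝ) ^ 2 ≤ (C * (n : ℝ) ^ (ε / 120)) ^ 2 :=
    pow_le_pow_left₀ (Nat.cast_nonneg _) h1 2
  have h4 : ((n : ℝ) ^ (ε / 120)) ^ 2 = (n : ℝ) ^ (ε / 60) := by
    rw [← Real.rpow_natCast, ← Real.rpow_mul hn0]
    congr 1
    push_cast
    ring
  have h5 : (n : ℝ) ^ (ε / 60) ≤ ((8 * 6 ^ 15) * B ^ 30) ^ (ε / 60) :=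
    Real.rpow_le_rpow hn0 h2 (by positivity)
  have h6 : (((8 * 6 ^ 15 : ℝ)) * B ^ 30) ^ (ε / 60) = (8 * 6 ^ 15 : ℝ) ^ (ε / 60) * B ^ (ε / 2) := by
    rw [Real.mul_rpow (by positivity) (by positivity)]
    congr 1
    rw [← Real.rpow_natCast B 30, ← Real.rpow_mul hB0]
    congr 1
    push_cast
    ring
  calc (n.divisors.card : ℝ) ^ 2 ≤ (C * (n : ℝ) ^ (ε / 120)) ^ 2 := h3
    _ = C ^ 2 * (n : ℝ) ^ (ε / 60) := by rw [mul_pow, h4]
    _ ≤ C ^ 2 * ((8 * 6 ^ 15 : ℝ) ^ (ε / 60) * B ^ (ε / 2)) := by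
        apply mul_le_mul_of_nonneg_left _ (by positivity)
        rw [← h6]
        exact h5
    _ = C ^ 2 * (8 * 6 ^ 15 : ℝ) ^ (ε / 60) * B ^ (ε / 2) := by ring

theorem hPA2 (hDE2 : StDE2) (hRNK : StRNK) (hBAS : StBAS) (hCON : StCON) (hDIS : StDIS) (hDEG : StDEG)
    (hDIV : StDIV) (hPL2 : StPL2) (hMA2 : StMA2) : StPA2 := by
  classical
  intro k ε hk hε
  obtain ⟨C1, hC1, hpl⟩ := hPL2 k ε hk hε
  obtain ⟨C2, hC2, hma⟩ := hMA2 k (ε / 2) hk (by positivity)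
  obtain ⟨C3, hC3, hta⟩ := tau_PA2 hDIV ε hε
  refine ⟨2 * C1 + 2 * C2 * C3, by positivity, ?_⟩
  intro B β lam hP S hS hd
  have hB := hP.B1
  have hB0 : (0 : ℝ) < B := by linarith
  have hBε : 0 < B ^ ε := Real.rpow_pos_of_pos hB0 _
  have hbd : ∀ p ∈ S, Fm p = k ∧ Bd B p := fun p hp => ⟨(hS p hp).sol, bd_PA2 (hS p hp)⟩
  rcases S.eq_empty_or_nonempty with rfl | ⟨p0, hp0⟩
  · simp only [Finset.card_empty, Nat.cast_zero]
    positivity
  have hG0 := hS p0 hp0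
  have hdet : ∀ p : Fin 6 → Pt, (∀ i, p i ∈ S) →
      Matrix.det (Matrix.of fun i j : Fin 6 => ver (p i) j) = 0 :=
    fun p hp => hDE2 k B β lam hP p0 hG0 p (fun i => hS _ (hp i)) (fun i => hd _ (hp i) _ hp0)
  obtain ⟨Q, hQ0, hQb, hQ⟩ := hRNK B S hB hdet (fun p hp j => ver_le_PA2 B p (hbd p hp).2 hB j)
  obtain ⟨f1, f2, hf⟩ := hBAS p0 hG0.prm
  by_cases hdeg : (Bf Q p0 f1 = 0 ∧ Bf Q p0 f2 = 0) ∨ RR Q p0 f1 f2 = 0
  · obtain ⟨N1, N2, h1, h2, h12⟩ := hDEG Q p0 f1 f2 hQ0 hf (hQ p0 hp0) hdeg S hQ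
    have hc1 := hpl B N1 (S.filter fun p => dot N1 p = 0) hB h1
      (fun p hp => ⟨(hbd p (Finset.mem_filter.1 hp).1).1, (hbd p (Finset.mem_filter.1 hp).1).2,
        (Finset.mem_filter.1 hp).2⟩)
    have hc2 := hpl B N2 (S.filter fun p => dot N2 p = 0) hB h2
      (fun p hp => ⟨(hbd p (Finset.mem_filter.1 hp).1).1, (hbd p (Finset.mem_filter.1 hp).1).2,
        (Finset.mem_filter.1 hp).2⟩)
    have hsub : S ⊆ (S.filter fun p => dot N1 p = 0) ∪ (S.filter fun p => dot N2 p = 0) := by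
      intro p hp
      rcases h12 p hp with h | h
      · exact Finset.mem_union_left _ (Finset.mem_filter.2 ⟨hp, h⟩)
      · exact Finset.mem_union_right _ (Finset.mem_filter.2 ⟨hp, h⟩)
    have hcard := (Finset.card_le_card hsub).trans (Finset.card_union_le _ _)
    have hcard' : (S.card : ℝ) ≤ ((S.filter fun p => dot N1 p = 0).card : ℝ) +
        ((S.filter fun p => dot N2 p = 0).card : ℝ) := by exact_mod_cast hcard
    have h7 : 0 ≤ 2 * C2 * C3 * B ^ ε := by positivity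
    nlinarith
  · have hb : Bf Q p0 f1 ≠ 0 ∨ Bf Q p0 f2 ≠ 0 := by
      by_contra hcon
      push Not at hcon
      exact hdeg (Or.inl hcon)
    have hR : RR Q p0 f1 f2 ≠ 0 := fun h => hdeg (Or.inr h)
    set R := RR Q p0 f1 f2 with hRdef
    have hRn : R.natAbs ≠ 0 := Int.natAbs_ne_zero.2 hR
    have hRB : ((R.natAbs : ℕ) : ℝ) ≤ 8 * ((6 * B ^ 2) ^ 5) ^ 3 := by
      have h1 := hDIS Q p0 f1 f2 ((6 * B ^ 2) ^ 5) hf (hQ p0 hp0) hQb
      have h2 : ((R.natAbs : ℕ) : ℝ) = |(R : ℝ)| := by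
        rw [Nat.cast_natAbs, Int.cast_abs]
      rw [h2]
      exact h1
    have hτ := hta B R.natAbs hB (Nat.one_le_iff_ne_zero.2 hRn) hRB
    set N := fnl_PAT (Bf Q p0 f1) (Bf Q p0 f2) p0 f1 f2 with hNdef
    have hNne : N ≠ 0 := fnl_ne_PAT _ _ _ _ _ hf hb
    have hdN : ∀ p : Pt, dot N p = lb Q p0 f1 f2 (det3 p0 p f2, det3 p0 f1 p) := by
      intro p
      rw [hNdef, dot_fnl_PAT]
      simp [lb]
    set S1 := S.filter fun p => dot N p = 0 with hS1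
    set S2 := S.filter fun p => ¬ dot N p = 0 with hS2
    have hc1 := hpl B N S1 hB hNne
      (fun p hp => ⟨(hbd p (Finset.mem_filter.1 hp).1).1, (hbd p (Finset.mem_filter.1 hp).1).2,
        (Finset.mem_filter.1 hp).2⟩)
    have hsplit : S1.card + S2.card = S.card := Finset.card_filter_add_card_filter_not _
    -- data for the points of S2
    have hdat : ∀ p : Pt, ∃ c : ℤ, p ∈ S2 → (c ≠ 0 ∧ c ∣ R ∧ ∃ a g u v : ℤ, 1 ≤ g ∧ IsCoprime u v ∧
        lb Q p0 f1 f2 (u, v) = g * c ∧ p = a • p0 + g • lf f1 f2 (u, v) ∧ c • p = cur Q p0 f1 f2 (u, v)) := by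
      intro p
      by_cases hp : p ∈ S2
      · obtain ⟨hpS, hpn⟩ := Finset.mem_filter.1 hp
        rw [hdN] at hpn
        obtain ⟨a, g, u, v, c, h1, h2, h3, h4, h5, h6, h7⟩ := hCON Q p0 f1 f2 p hf (hQ p0 hp0) (hQ p hpS)
          (hS p hpS).prm hpn
        exact ⟨c, fun _ => ⟨h3, h4, a, g, u, v, h1, h2, h5, h6, h7⟩⟩
      · exact ⟨0, fun h => absurd h hp⟩
    choose cf hcf using hdat
    set D : Finset ℤ := (R.natAbs.divisors.image fun n : ℕ => (n : ℤ)) ∪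
      (R.natAbs.divisors.image fun n : ℕ => -(n : ℤ)) with hD
    have hDcard : D.card ≤ 2 * R.natAbs.divisors.card := by
      have h1 : (R.natAbs.divisors.image fun n : ℕ => (n : ℤ)).card ≤ R.natAbs.divisors.card :=
        Finset.card_image_le
      have h2 : (R.natAbs.divisors.image fun n : ℕ => -(n : ℤ)).card ≤ R.natAbs.divisors.card :=
        Finset.card_image_le
      have h3 := Finset.card_union_le (R.natAbs.divisors.image fun n : ℕ => (n : ℤ))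
        (R.natAbs.divisors.image fun n : ℕ => -(n : ℤ))
      rw [hD]
      omega
    have hmaps : ∀ p ∈ S2, cf p ∈ D := by
      intro p hp
      obtain ⟨h1, h2, -⟩ := hcf p hp
      have h3 : (cf p).natAbs ∈ R.natAbs.divisors :=
        Nat.mem_divisors.2 ⟨Int.natAbs_dvd_natAbs.2 h2, hRn⟩
      rcases Int.natAbs_eq (cf p) with h | h
      · exact Finset.mem_union_left _ (Finset.mem_image.2 ⟨_, h3, h.symm⟩)
      · exact Finset.mem_union_right _ (Finset.mem_image.2 ⟨_, h3, h.symm⟩)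
    set τ : ℝ := (R.natAbs.divisors.card : ℝ) with hτdef
    have hτ0 : 0 ≤ τ := Nat.cast_nonneg _
    have hBh : 0 < B ^ (ε / 2) := Real.rpow_pos_of_pos hB0 _
    have hfib : ∀ c ∈ D, ((S2.filter fun p => cf p = c).card : ℝ) ≤ C2 * τ * B ^ (ε / 2) := by
      intro c hc
      by_cases hemp : (S2.filter fun p => cf p = c) = ∅
      · rw [hemp]
        simp only [Finset.card_empty, Nat.cast_zero]
        positivity
      · obtain ⟨q, hq⟩ := Finset.nonempty_iff_ne_empty.2 hemp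
        obtain ⟨hq2, hqc⟩ := Finset.mem_filter.1 hq
        obtain ⟨hc0, hcR, -⟩ := hcf q hq2
        rw [hqc] at hc0 hcR
        have hm := hma B Q p0 f1 f2 hB (hbd p0 hp0).2 hf c hc0 (S2.filter fun p => cf p = c) (by
          intro p hp
          obtain ⟨hp2, hpc⟩ := Finset.mem_filter.1 hp
          have hpS := (Finset.mem_filter.1 hp2).1
          obtain ⟨-, -, a, g, u, v, h1, h2, h3, h4, h5⟩ := hcf p hp2
          rw [hpc] at h3 h5
          exact ⟨(hbd p hpS).1, (hbd p hpS).2, a, g, u, v, h1, h2, h3, h4, h5⟩)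
        have hcd : (c.natAbs.divisors.card : ℝ) ≤ τ := by
          rw [hτdef]
          exact_mod_cast Finset.card_le_card (Nat.divisors_subset_of_dvd hRn (Int.natAbs_dvd_natAbs.2 hcR))
        calc ((S2.filter fun p => cf p = c).card : ℝ) ≤ C2 * c.natAbs.divisors.card * B ^ (ε / 2) := hm
          _ ≤ C2 * τ * B ^ (ε / 2) := by
            apply mul_le_mul_of_nonneg_right _ hBh.le
            exact mul_le_mul_of_nonneg_left hcd hC2.le
    have hc2 : (S2.card : ℝ) ≤ D.card * (C2 * τ * B ^ (ε / 2)) := by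
      rw [Finset.card_eq_sum_card_fiberwise hmaps]
      push_cast
      calc ∑ c ∈ D, ((S2.filter fun p => cf p = c).card : ℝ)
          ≤ ∑ _c ∈ D, (C2 * τ * B ^ (ε / 2)) := Finset.sum_le_sum hfib
        _ = D.card * (C2 * τ * B ^ (ε / 2)) := by
          rw [Finset.sum_const, nsmul_eq_mul]
    have hDc : (D.card : ℝ) ≤ 2 * τ := by
      rw [hτdef]
      exact_mod_cast hDcard
    have hBB : B ^ (ε / 2) * B ^ (ε / 2) = B ^ ε := by
      rw [← Real.rpow_add hB0]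
      congr 1
      ring
    have h9 : (D.card : ℝ) * (C2 * τ * B ^ (ε / 2)) ≤ 2 * C2 * C3 * B ^ ε := by
      calc (D.card : ℝ) * (C2 * τ * B ^ (ε / 2))
          ≤ (2 * τ) * (C2 * τ * B ^ (ε / 2)) :=
            mul_le_mul_of_nonneg_right hDc (by positivity)
        _ = 2 * C2 * τ ^ 2 * B ^ (ε / 2) := by ring
        _ ≤ 2 * C2 * (C3 * B ^ (ε / 2)) * B ^ (ε / 2) := by
            apply mul_le_mul_of_nonneg_right _ hBh.le
            exact mul_le_mul_of_nonneg_left hτ (by positivity)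
        _ = 2 * C2 * C3 * (B ^ (ε / 2) * B ^ (ε / 2)) := by ring
        _ = 2 * C2 * C3 * B ^ ε := by rw [hBB]
    have hS' : (S.card : ℝ) = (S1.card : ℝ) + (S2.card : ℝ) := by exact_mod_cast hsplit.symm
    have h10 : 0 ≤ C1 * B ^ ε := by positivity
    calc (S.card : ℝ) = (S1.card : ℝ) + (S2.card : ℝ) := hS'
      _ ≤ C1 * B ^ ε + 2 * C2 * C3 * B ^ ε := add_le_add hc1 (hc2.trans h9)
      _ ≤ (2 * C1 + 2 * C2 * C3) * B ^ ε := by nlinarith

end Pool.Agent.Helper92.PU
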